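import Pool.Agent.Lib.MP_d0e829_nt.CV.MainP
import Pool.Agent.Lib.MP_d0e829_nt.Sanity

/-!
# Schmidt-Wirsing inequality off curves for points over fields with few places above `S`

Let `k` be a number field, `S` a finite set of places of `k` and `L_1, …, L_q` lines over `k` in general
position. For every `N` and `ε > 0` there are finitely many curves over `k`, the `L_i` among them, and a
constant `C` with `m_{D,S}(P) ≤ (N + 1 + ε) h(P) + C` for all number fields `K` over `k` with at most `N` places
above `S` (for instance `|S| [K : k] ≤ N`) and all points `P` with coordinates in `K` outside these curves.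

For `|S| ≤ 2` and `[K : k] ≤ δ` this is `m_{D,S}(P) ≤ (2 δ + 1 + ε) h(P) + C` (`N = 2 δ`).

The definitions are in `Pool.Agent.Lib.MP_d0e829_nt.Defs`; `Pool.Agent.Lib.MP_d0e829_nt.Sanity`
proves that the height is Mathlib's logarithmic height divided by the degree and that height and
proximity do not depend on the choice of coordinates.
-/

open NumberField Pool.Agent.Lib.MP_d0e829_nt

namespace Pool.Agent.Results.MP_d0e829_nt.FewPlaces

theorem result {k : Type} [Field k] [NumberField k] (S : Finset (Place k)) {q : ℕ}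
    (ℓ : Fin q → Fin 3 → k) (h0 : ∀ i, ℓ i ≠ 0)
    (hgen : ∀ i j l, i ≠ j → i ≠ l → j ≠ l → LinearIndependent k ![ℓ i, ℓ j, ℓ l])
    (N : ℕ) (ε : ℝ) (hε : 0 < ε) :
    ∃ (Gs : Finset (MvPolynomial (Fin 3) k)) (C : ℝ),
      (∀ G ∈ Gs, G ≠ 0 ∧ ∃ D : ℕ, G.IsHomogeneous D) ∧
      (∀ i, ∑ j, MvPolynomial.C (ℓ i j) * MvPolynomial.X j ∈ Gs) ∧
      ∀ (K : Type) [Field K] [NumberField K] [Algebra k K] (x : Fin 3 → K),
        ((placesAbove K S).ncard ≤ N ∨ S.card * Module.finrank k K ≤ N) →
        x ≠ 0 → (∀ G ∈ Gs, MvPolynomial.aeval x G ≠ 0) →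
        proximity S ℓ x ≤ (N + 1 + ε) * height x + C := by
  classical
  obtain ⟨Gs, C, hG, hC⟩ := CV.fewPlaces k S q ℓ h0 hgen N ε hε
  refine ⟨Gs ∪ Finset.univ.image (fun i => ∑ j, MvPolynomial.C (ℓ i j) * MvPolynomial.X j), C,
    ?_, ?_, ?_⟩
  · intro G h
    rcases Finset.mem_union.1 h with h1 | h1
    · exact hG G h1
    · obtain ⟨i, -, rfl⟩ := Finset.mem_image.1 h1
      refine ⟨?_, 1, ?_⟩
      · intro he
        apply h0 i
        funext j
        have h2 := congrArg (MvPolynomial.eval (Pi.single j (1 : k))) he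
        simpa [Pi.single_apply] using h2
      · refine MvPolynomial.IsHomogeneous.sum _ _ _ fun j _ => ?_
        exact MvPolynomial.isHomogeneous_C_mul_X _ _
  · intro i
    exact Finset.mem_union_right _ (Finset.mem_image_of_mem _ (Finset.mem_univ i))
  · intro K _ _ _ x hN hx hx'
    refine hC K x ?_ hx fun G h => hx' G (Finset.mem_union_left _ h)
    rcases hN with h | h
    · exact h
    · exact (ncard_placesAbove_le (K := K) S).trans h

end Pool.Agent.Results.MP_d0e829_nt.FewPlaces
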