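import Pool.Agent.Lib.MP_d0e829_nt.GP.MainU
import Pool.Agent.Lib.MP_d0e829_nt.SH.Main
import Pool.Agent.Lib.MP_d0e829_nt.Sanity

/-!
# Points of bounded degree near lines in the plane: when can the trivial bound be improved?

Trivially `m_{D,S}(P) ≤ q h(P) + O(1)` for `D = L_1 + ⋯ + L_q`.  Let `δ ≥ 1`.

(1) There is `θ < 1`, depending only on `δ`, such that for every `q > 3 δ`, every number field `k`, every
finite set `S` of places of `k` and all lines `L_1, …, L_q` over `k` in general position there are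
finitely many lines `Z` over `k`, the `L_i` among them, and a constant `C` such that
`m_{D,S}(P) ≤ θ q h(P) + C` for every point `P` outside `Z` with coordinates in an extension `K / k` of
degree at most `δ`.  (In particular the
points with `m_{D,S}(P) ≥ q h(P) - C'`, the `S`-integral points, that lie outside `Z` have bounded
height.)

(2) If `q ≤ 3 δ`, then for every number field `k` there are `S` and lines `L_1, …, L_q` over `k` in general
position such that for all finite sets `Z` of lines over an algebraic closure of `k` and all `B` there is a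
point `P` outside `Z` and outside `D` with coordinates in an extension `K / k` of degree at most `δ`, with
`h(P) ≥ B` and `m_{D,S}(P) ≥ q h(P)`.

The definitions are in `Pool.Agent.Lib.MP_d0e829_nt.Defs`; `Pool.Agent.Lib.MP_d0e829_nt.Sanity`
proves that the height is Mathlib's logarithmic height divided by the degree and that height and
proximity do not depend on the choice of coordinates.
-/

open NumberField Pool.Agent.Lib.MP_d0e829_nt

namespace Pool.Agent.Results.MP_d0e829_nt.GapTheorem

theorem result (δ : ℕ) (hδ : 1 ≤ δ) :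
    (∃ θ : ℝ, θ < 1 ∧ ∀ q : ℕ, 3 * δ < q → ∀ (k : Type) [Field k] [NumberField k]
      (S : Finset (Place k)) (ℓ : Fin q → Fin 3 → k),
      (∀ i j l, i ≠ j → i ≠ l → j ≠ l → LinearIndependent k ![ℓ i, ℓ j, ℓ l]) →
      ∃ (Z : Finset (Fin 3 → k)) (C : ℝ), (∀ M ∈ Z, M ≠ 0) ∧ (∀ i, ℓ i ∈ Z) ∧
        ∀ (K : Type) [Field K] [NumberField K] [Algebra k K] (x : Fin 3 → K),
          Module.finrank k K ≤ δ → x ≠ 0 → (∀ M ∈ Z, evalForm M x ≠ 0) →
          proximity S ℓ x ≤ θ * q * height x + C) ∧
    (∀ q : ℕ, q ≤ 3 * δ → ∀ (k : Type) [Field k] [NumberField k],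
      ∃ (S : Finset (Place k)) (ℓ : Fin q → Fin 3 → k),
      (∀ i j l, i ≠ j → i ≠ l → j ≠ l → LinearIndependent k ![ℓ i, ℓ j, ℓ l]) ∧
      ∀ (Z : Finset (Fin 3 → AlgebraicClosure k)) (B : ℝ), (∀ M ∈ Z, M ≠ 0) →
        ∃ (K : Type) (_ : Field K) (_ : NumberField K) (_ : Algebra k K) (x : Fin 3 → K),
          Module.finrank k K ≤ δ ∧ x ≠ 0 ∧ (∀ i, evalForm (ℓ i) x ≠ 0) ∧
          (∀ σ : K →ₐ[k] AlgebraicClosure k, ∀ M ∈ Z, ∑ j, M j * σ (x j) ≠ 0) ∧
          B ≤ height x ∧ q * height x ≤ proximity S ℓ x) := by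
  refine ⟨?_, fun q hq k _ _ => SH.sharp k δ q hδ hq⟩
  obtain ⟨θ, hθ, h⟩ := GP.gapU δ
  refine ⟨θ, hθ, fun q hq k _ _ S ℓ hgen => ?_⟩
  classical
  obtain ⟨Z, C, hZ, hC⟩ := h q hq k S ℓ hgen
  have hne : ∀ i : Fin q, ℓ i ≠ 0 := by
    intro i
    obtain ⟨j, hj⟩ : ∃ j : Fin q, j ∉ ({i} : Finset (Fin q)) := by
      by_contra hcon
      push Not at hcon
      have h1 := Finset.card_le_card (fun j _ => hcon j : (Finset.univ : Finset (Fin q)) ⊆ {i})
      rw [Finset.card_univ, Fintype.card_fin, Finset.card_singleton] at h1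
      omega
    obtain ⟨l, hl⟩ : ∃ l : Fin q, l ∉ ({i, j} : Finset (Fin q)) := by
      by_contra hcon
      push Not at hcon
      have h1 := Finset.card_le_card (fun j _ => hcon j : (Finset.univ : Finset (Fin q)) ⊆ {i, j})
      have h2 := Finset.card_le_two (a := i) (b := j)
      rw [Finset.card_univ, Fintype.card_fin] at h1
      omega
    have hij : i ≠ j := fun e => hj (by simp [e])
    have hil : i ≠ l := fun e => hl (by simp [e])
    have hjl : j ≠ l := fun e => hl (by simp [e])
    exact (hgen i j l hij hil hjl).ne_zero 0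
  refine ⟨Z ∪ Finset.univ.image ℓ, C, ?_, ?_, ?_⟩
  · intro M hM
    rcases Finset.mem_union.1 hM with h1 | h1
    · exact hZ M h1
    · obtain ⟨i, -, rfl⟩ := Finset.mem_image.1 h1
      exact hne i
  · intro i
    exact Finset.mem_union_right _ (Finset.mem_image_of_mem ℓ (Finset.mem_univ i))
  · intro K _ _ _ x hK hx hM
    exact hC K x hK hx fun M h1 => hM M (Finset.mem_union_left _ h1)

end Pool.Agent.Results.MP_d0e829_nt.GapTheorem
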