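import Pool.Agent.Lib.MP_d0e829_nt.SS.MainD2
import Pool.Agent.Lib.MP_d0e829_nt.Sanity

/-!
# Points of degree at most two near lines in the projective plane

For every number field `k`, every finite set `S` of places of `k`, all lines `L_1, …, L_q` over `k` in
general position and every `ε > 0` there are finitely many lines `Z` over an algebraic closure of `k`
and a constant `C` with `m_{D,S}(P) ≤ (3 * 2 + ε) h(P) + C` for all points `P` outside `Z` with
coordinates in an extension `K / k` of degree at most two.

The definitions are in `Pool.Agent.Lib.MP_d0e829_nt.Defs`; `Pool.Agent.Lib.MP_d0e829_nt.Sanity`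
proves that the height is Mathlib's logarithmic height divided by the degree and that height and
proximity do not depend on the choice of coordinates.  The proof contains Schmidt's Subspace theorem
over number fields (`Pool.Agent.Lib.MP_d0e829_nt.SS.sub`).
-/

open NumberField Pool.Agent.Lib.MP_d0e829_nt

namespace Pool.Agent.Results.MP_d0e829_nt.QuadraticPoints

theorem result {k : Type} [Field k] [NumberField k] (S : Finset (Place k)) {q : ℕ}
    (ℓ : Fin q → Fin 3 → k) (h0 : ∀ i, ℓ i ≠ 0)
    (hgen : ∀ i j l, i ≠ j → i ≠ l → j ≠ l → LinearIndependent k ![ℓ i, ℓ j, ℓ l])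
    (ε : ℝ) (hε : 0 < ε) :
    ∃ (Z : Finset (Fin 3 → AlgebraicClosure k)) (C : ℝ), (∀ M ∈ Z, M ≠ 0) ∧
      ∀ (K : Type) [Field K] [NumberField K] [Algebra k K] (σ : K →ₐ[k] AlgebraicClosure k)
        (x : Fin 3 → K), Module.finrank k K ≤ 2 → x ≠ 0 →
        (∀ M ∈ Z, ∑ j, M j * σ (x j) ≠ 0) →
        proximity S ℓ x ≤ (3 * 2 + ε) * height x + C :=
  Pool.Agent.Lib.MP_d0e829_nt.SS.quadratic k S q ℓ h0 hgen ε hε

end Pool.Agent.Results.MP_d0e829_nt.QuadraticPoints
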