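import Pool.Agent.Lib.MP_d0e829_nt.Main
import Pool.Agent.Lib.MP_d0e829_nt.Sanity

/-!
# Schmidt-Wirsing inequality with constant `3 δ` when at most two places are used

For every number field `k`, every finite set `S` of places of `k`, all lines in general position
over `k` and every `δ` there are finitely many lines `Z` over `k` and a constant `C` with
`m_{D,S}(P) ≤ 3 δ h(P) + C` for all points `P` outside `Z` with coordinates in an extension `K / k`
of degree at most `δ`, as soon as `|S| ≤ 2` or `K` has at most `2 δ` places above `S`.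

The definitions are in `Pool.Agent.Lib.MP_d0e829_nt.Defs`; `Pool.Agent.Lib.MP_d0e829_nt.Sanity`
proves that the height is Mathlib's logarithmic height divided by the degree and that height and
proximity do not depend on the choice of coordinates.
-/

open NumberField Pool.Agent.Lib.MP_d0e829_nt

namespace Pool.Agent.Results.MP_d0e829_nt.TwoPlaces

universe u

theorem result {k : Type u} [Field k] [NumberField k] (S : Finset (Place k)) {q : ℕ}
    (ℓ : Fin q → Fin 3 → k) (h0 : ∀ i, ℓ i ≠ 0)
    (hgen : ∀ i j l, i ≠ j → i ≠ l → j ≠ l → LinearIndependent k ![ℓ i, ℓ j, ℓ l]) (δ : ℕ) :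
    ∃ (Z : Finset (Fin 3 → k)) (C : ℝ), (∀ M ∈ Z, M ≠ 0) ∧
      ∀ (K : Type u) [Field K] [NumberField K] [Algebra k K] (x : Fin 3 → K),
        Module.finrank k K ≤ δ → (S.card ≤ 2 ∨ (placesAbove K S).ncard ≤ 2 * δ) →
        x ≠ 0 → (∀ M ∈ Z, evalForm M x ≠ 0) →
        proximity S ℓ x ≤ 3 * δ * height x + C :=
  main S ℓ h0 hgen δ

end Pool.Agent.Results.MP_d0e829_nt.TwoPlaces
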